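import Mathlib

/-!
# Definitions for MP_58e31d_lc

* decision problems over finite alphabets, the class NP, polynomial-time many-one reductions and
  NP-completeness, all in terms of Mathlib's `Turing.TM2ComputableInPolyTime`;
* finite undirected graphs with loops allowed and no multiple edges;
* the list `F`-colouring problem and the `(H,C,K)`-colouring problem;
* weighted extensions.
-/

namespace Pool.Agent.Helper32_HCK

/-! ### Complexity classes -/

/-- A decision problem: a type of instances, an injective encoding of the instances by words over
a finite alphabet, and the set of yes-instances. -/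
structure DecisionProblem where
  /-- the instances -/
  Inst : Type
  /-- the alphabet used to write instances down -/
  Alph : Type
  /-- the alphabet is finite -/
  alphFintype : Fintype Alph
  /-- the word encoding an instance -/
  enc : Inst → List Alph
  /-- different instances have different encodings -/
  enc_injective : Function.Injective enc
  /-- the yes-instances -/
  Yes : Inst → Prop

/-- The encoding of a pair (instance, certificate): the word encoding the instance followed by the
certificate, over the disjoint union of the two alphabets. -/
def DecisionProblem.encPair (P : DecisionProblem) {B : Type} (x : P.Inst × List B) :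
    List (P.Alph ⊕ B) :=
  (P.enc x.1).map Sum.inl ++ x.2.map Sum.inr

/-- `P` is in NP: for some finite certificate alphabet `B` and some polynomial `q` there is a
polynomial-time computable verifier `V` such that `x` is a yes-instance iff `V (x, c) = true` for
some certificate `c` of length at most `q (length of the encoding of x)`. -/
def InNP (P : DecisionProblem) : Prop :=
  ∃ (B : Type) (_ : Fintype B) (V : P.Inst × List B → Bool) (q : Polynomial ℕ),
    Nonempty (Turing.TM2ComputableInPolyTime P.encPair Computability.encodeBool V) ∧
    ∀ x, P.Yes x ↔ ∃ c : List B, c.length ≤ q.eval (P.enc x).length ∧ V (x, c) = true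

/-- Polynomial-time many-one reducibility. -/
def PolyReduces (P Q : DecisionProblem) : Prop :=
  ∃ f : P.Inst → Q.Inst, Nonempty (Turing.TM2ComputableInPolyTime P.enc Q.enc f) ∧
    ∀ x, P.Yes x ↔ Q.Yes (f x)

/-- A language over the alphabet `{0,1}`, as a decision problem. -/
def languageProblem (L : Set (List Bool)) : DecisionProblem where
  Inst := List Bool
  Alph := Bool
  alphFintype := inferInstance
  enc := id
  enc_injective := Function.injective_id
  Yes := fun w => w ∈ L

/-- NP-completeness: membership in NP, and every language `L ⊆ {0,1}*` in NP is polynomial-time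
many-one reducible to `P`. -/
def NPComplete (P : DecisionProblem) : Prop :=
  InNP P ∧ ∀ L : Set (List Bool), InNP (languageProblem L) → PolyReduces (languageProblem L) P

/-! ### Graphs and colourings -/

/-- An undirected graph without multiple edges, loops allowed. -/
structure LoopGraph (V : Type) where
  /-- adjacency; `Adj v v` means that there is a loop at `v` -/
  Adj : V → V → Prop
  /-- adjacency is symmetric -/
  symm : ∀ u v, Adj u v → Adj v u

/-- `χ` is a homomorphism from `G` to `H`, i.e. an `H`-colouring of `G`. -/
def IsColouring {U V : Type} (G : LoopGraph U) (H : LoopGraph V) (χ : U → V) : Prop :=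
  ∀ u v, G.Adj u v → H.Adj (χ u) (χ v)

open Classical in
/-- The `u`-th row of the lower triangle of the adjacency matrix of a graph on `{0,…,n-1}`:
the bits `[u ~ 0], [u ~ 1], …, [u ~ u]`. -/
noncomputable def rowBits {n : ℕ} (G : LoopGraph (Fin n)) (u : Fin n) : List Bool :=
  List.ofFn fun v : Fin (u.val + 1) => decide (G.Adj u (Fin.castLE u.isLt v))

/-- Encoding of a graph on `{0,…,n-1}`: for each vertex `u = 0, 1, …, n-1` the marker `none`
followed by the `u`-th row of the lower triangle of the adjacency matrix. -/
noncomputable def encodeGraph (x : Σ n : ℕ, LoopGraph (Fin n)) : List (Option Bool) :=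
  (List.finRange x.1).flatMap fun u => none :: (rowBits x.2 u).map some

/-- An instance of the list `F`-colouring problem: a finite graph `G` on `{0,…,n-1}` with a list
`L u ⊆ V(F)` for each vertex `u`. -/
structure ListInstance (V : Type) where
  /-- number of vertices -/
  n : ℕ
  /-- the graph -/
  G : LoopGraph (Fin n)
  /-- the lists -/
  L : Fin n → Set V

/-- Encoding of an instance of list `F`-colouring over the finite alphabet `Set V(F) ⊕ {0,1}`:
for each vertex `u = 0, 1, …, n-1` the letter `L u` followed by the `u`-th row of the lower
triangle of the adjacency matrix. -/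
noncomputable def encodeListInstance {V : Type} (x : ListInstance V) : List (Set V ⊕ Bool) :=
  (List.finRange x.n).flatMap fun u => Sum.inl (x.L u) :: (rowBits x.G u).map Sum.inr

theorem flatMap_inj {α β : Type} (f g : α → List β) : ∀ (l : List α)
    (_ : ∀ a ∈ l, (f a).length = (g a).length) (_ : l.flatMap f = l.flatMap g),
    ∀ a ∈ l, f a = g a
  | [], _, _, a, ha => by simp at ha
  | b :: l, h, e, a, ha => by
    rw [List.flatMap_cons, List.flatMap_cons] at e
    have h2 := List.append_inj e (h b (by simp))
    rcases List.mem_cons.1 ha with rfl | ha
    · exact h2.1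
    · exact flatMap_inj f g l (fun a ha => h a (by simp [ha])) h2.2 a ha

theorem rowBits_inj {n : ℕ} {G G' : LoopGraph (Fin n)} (h : ∀ u, rowBits G u = rowBits G' u) :
    G = G' := by
  have key : ∀ u v : Fin n, v.val ≤ u.val → (G.Adj u v ↔ G'.Adj u v) := by
    intro u v huv
    have h1 := h u
    unfold rowBits at h1
    have h2 := congrFun (List.ofFn_injective h1) ⟨v.val, Nat.lt_succ_of_le huv⟩
    have h3 : Fin.castLE u.isLt (⟨v.val, Nat.lt_succ_of_le huv⟩ : Fin (u.val + 1)) = v := by
      ext; simp
    simp only [h3, decide_eq_decide] at h2
    exact h2
  obtain ⟨A, sA⟩ := G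
  obtain ⟨A', sA'⟩ := G'
  congr 1
  funext u v
  apply propext
  rcases le_total v.val u.val with h | h
  · exact key u v h
  · constructor
    · intro h1
      exact sA' _ _ ((key v u h).1 (sA _ _ h1))
    · intro h1
      exact sA _ _ ((key v u h).2 (sA' _ _ h1))

theorem encodeGraph_injective : Function.Injective encodeGraph := by
  rintro ⟨n, G⟩ ⟨n', G'⟩ h
  have hc : ∀ x : (Σ n : ℕ, LoopGraph (Fin n)),
      (encodeGraph x).countP (fun a => a.isNone) = x.1 := by
    intro x
    unfold encodeGraph
    rw [List.countP_flatMap]
    have : ((fun u : Fin x.1 => List.countP (fun a : Option Bool => a.isNone)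
        (none :: (rowBits x.2 u).map some))) = fun _ => 1 := by
      funext u
      rw [List.countP_cons, List.countP_map]
      simp [Function.comp_def]
    simp [Function.comp_def, this]
  have h1 : n = n' := by
    have h1 := hc ⟨n, G⟩
    have h2 := hc ⟨n', G'⟩
    rw [h] at h1
    exact h1.symm.trans h2
  subst h1
  congr 1
  apply rowBits_inj
  intro u
  have h2 := flatMap_inj (fun u => (none : Option Bool) :: (rowBits G u).map some)
    (fun u => none :: (rowBits G' u).map some) (List.finRange n)
    (by intro a _; simp [rowBits]) h u (by simp)
  have h3 := (List.cons.inj h2).2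
  exact List.map_injective_iff.2 (Option.some_injective _) h3

theorem encodeListInstance_injective {V : Type} :
    Function.Injective (encodeListInstance (V := V)) := by
  rintro ⟨n, G, L⟩ ⟨n', G', L'⟩ h
  have hc : ∀ x : ListInstance V,
      (encodeListInstance x).countP (fun a => a.isLeft) = x.n := by
    intro x
    unfold encodeListInstance
    rw [List.countP_flatMap]
    have : ((fun u : Fin x.n => List.countP (fun a : Set V ⊕ Bool => a.isLeft)
        (Sum.inl (x.L u) :: (rowBits x.G u).map Sum.inr))) = fun _ => 1 := by
      funext u
      rw [List.countP_cons, List.countP_map]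
      simp [Function.comp_def]
    simp [Function.comp_def, this]
  have h1 : n = n' := by
    have h1 := hc ⟨n, G, L⟩
    have h2 := hc ⟨n', G', L'⟩
    rw [h] at h1
    exact h1.symm.trans h2
  subst h1
  have h2 := flatMap_inj (fun u => (Sum.inl (L u) : Set V ⊕ Bool) :: (rowBits G u).map Sum.inr)
    (fun u => Sum.inl (L' u) :: (rowBits G' u).map Sum.inr) (List.finRange n)
    (by intro a _; simp [rowBits]) h
  have h3 : G = G' := by
    apply rowBits_inj
    intro u
    have h3 := (List.cons.inj (h2 u (by simp))).2
    exact List.map_injective_iff.2 Sum.inr_injective h3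
  have h4 : L = L' := by
    funext u
    exact Sum.inl_injective (List.cons.inj (h2 u (by simp))).1
  rw [h3, h4]

/-- The list `F`-colouring problem: given a finite graph `G` with lists `L u ⊆ V(F)`, is there an
`F`-colouring `χ` of `G` with `χ u ∈ L u` for all `u`? -/
noncomputable def listColouringProblem {V : Type} [Fintype V] (F : LoopGraph V) :
    DecisionProblem where
  Inst := ListInstance V
  Alph := Set V ⊕ Bool
  alphFintype := Fintype.ofFinite _
  enc := encodeListInstance
  enc_injective := encodeListInstance_injective
  Yes := fun x => ∃ χ : Fin x.n → V, IsColouring x.G F χ ∧ ∀ u, χ u ∈ x.L u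

/-- A partial weighted assignment `(H, C, K)`. -/
structure PartialWeightedAssignment (W : Type) where
  /-- the graph `H` -/
  H : LoopGraph W
  /-- the set `C` of restricted vertices -/
  C : Set W
  /-- the weights `K` -/
  K : C → ℕ

/-- `χ` is an `(H, C, K)`-colouring of `G`: an `H`-colouring with exactly `K a` vertices of
colour `a`, for each `a ∈ C`. -/
def PartialWeightedAssignment.IsHCKColouring {U W : Type} (T : PartialWeightedAssignment W)
    (G : LoopGraph U) (χ : U → W) : Prop :=
  IsColouring G T.H χ ∧ ∀ a : T.C, (χ ⁻¹' {a.val}).ncard = T.K a

/-- The `(H, C, K)`-colouring problem: given a finite graph `G`, is there an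
`(H, C, K)`-colouring of `G`? -/
noncomputable def PartialWeightedAssignment.colouringProblem {W : Type}
    (T : PartialWeightedAssignment W) : DecisionProblem where
  Inst := Σ n : ℕ, LoopGraph (Fin n)
  Alph := Option Bool
  alphFintype := inferInstance
  enc := encodeGraph
  enc_injective := encodeGraph_injective
  Yes := fun x => ∃ χ : Fin x.1 → W, T.IsHCKColouring x.2 χ

/-- `(H, C, K)` is a weighted extension of `F`: the subgraph of `H` induced on the complement of
`C` is (isomorphic to) `F`. -/
def PartialWeightedAssignment.IsWeightedExtensionOf {V W : Type}
    (T : PartialWeightedAssignment W) (F : LoopGraph V) : Prop :=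
  ∃ e : V ≃ {w : W // w ∉ T.C}, ∀ u v, F.Adj u v ↔ T.H.Adj (e u).val (e v).val

end Pool.Agent.Helper32_HCK
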