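import Pool.Agent.Helper32_HCK.Defs

/-!
# The gadget construction
-/

namespace Pool.Agent.Helper32_HCK

open Classical

variable {V : Type} [Fintype V]

/-- index set of the gadget: two anchors and two pendants for every list -/
abbrev J (V : Type) : Type := Set V × Bool

noncomputable instance : Fintype (J V) := Fintype.ofFinite _

/-- an enumeration of the index set -/
noncomputable def idx : J V ≃ Fin (Fintype.card (J V)) := Fintype.equivFin _

/-- the weight of the pendant `j` -/
noncomputable def wt (j : J V) : ℕ := (idx j).val + 2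

theorem wt_injective : Function.Injective (wt (V := V)) := by
  intro i j h
  have h2 : (idx i).val = (idx j).val := by
    have : (idx i).val + 2 = (idx j).val + 2 := h
    omega
  exact idx.injective (Fin.ext h2)

/-- adjacency of the extended target graph: `inl v` vertices of `F`, `inr (inl j)` anchors,
`inr (inr j)` pendants. -/
def HAdj (F : LoopGraph V) : V ⊕ (J V ⊕ J V) → V ⊕ (J V ⊕ J V) → Prop
  | .inl u, .inl v => F.Adj u v
  | .inl u, .inr (.inl j) => u ∈ j.1
  | .inr (.inl j), .inl u => u ∈ j.1
  | .inr (.inl i), .inr (.inr j) => i = j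
  | .inr (.inr i), .inr (.inl j) => i = j
  | _, _ => False

/-- the extended target graph -/
def HGraph (F : LoopGraph V) : LoopGraph (V ⊕ (J V ⊕ J V)) where
  Adj := HAdj F
  symm := by
    rintro (u | i | i) (v | j | j) h
    · exact F.symm _ _ h
    · exact h
    · exact h.elim
    · exact h
    · exact h.elim
    · exact Eq.symm h
    · exact h.elim
    · exact Eq.symm h
    · exact h.elim

/-- weights of the new vertices -/
noncomputable def HWt : V ⊕ (J V ⊕ J V) → ℕ
  | .inl _ => 0
  | .inr (.inl _) => 1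
  | .inr (.inr j) => wt j

/-- the weighted extension of `F` -/
noncomputable def ext (F : LoopGraph V) : PartialWeightedAssignment (V ⊕ (J V ⊕ J V)) where
  H := HGraph F
  C := Set.range Sum.inr
  K := fun a => HWt a.val

theorem ext_isWeightedExtension (F : LoopGraph V) : (ext F).IsWeightedExtensionOf F := by
  refine ⟨⟨fun v => ⟨Sum.inl v, by rintro ⟨x, hx⟩; cases hx⟩,
    fun w => match w with
      | ⟨.inl v, _⟩ => v
      | ⟨.inr x, h⟩ => absurd ⟨x, rfl⟩ h, fun v => rfl, ?_⟩, fun u v => Iff.rfl⟩
  rintro ⟨w | w, hw⟩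
  · rfl
  · exact absurd ⟨w, rfl⟩ hw

/-- vertices of the gadget part of the source graph -/
abbrev D (V : Type) [Fintype V] : Type := J V ⊕ (Σ j : J V, Fin (wt j))

/-- adjacency of the source graph of the reduction -/
def GAdj {U : Type} (G : LoopGraph U) (L : U → Set V) : D V ⊕ U → D V ⊕ U → Prop
  | .inr u, .inr v => G.Adj u v
  | .inr u, .inl (.inl j) => L u = j.1
  | .inl (.inl j), .inr u => L u = j.1
  | .inl (.inl i), .inl (.inr p) => i = p.1
  | .inl (.inr p), .inl (.inl j) => p.1 = j
  | _, _ => False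

/-- source graph of the reduction -/
def GGraph {U : Type} (G : LoopGraph U) (L : U → Set V) : LoopGraph (D V ⊕ U) where
  Adj := GAdj G L
  symm := by
    rintro ((i | p) | u) ((j | q) | v) h
    · exact h.elim
    · exact Eq.symm h
    · exact h
    · exact Eq.symm h
    · exact h.elim
    · exact h.elim
    · exact h
    · exact h.elim
    · exact G.symm _ _ h

section

variable {U : Type} [Finite U] (F : LoopGraph V) (G : LoopGraph U) (L : U → Set V)

omit [Finite U] in
theorem gadget_forward (h : ∃ χ : U → V, IsColouring G F χ ∧ ∀ u, χ u ∈ L u) :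
    ∃ χ : D V ⊕ U → V ⊕ (J V ⊕ J V), (ext F).IsHCKColouring (GGraph G L) χ := by
  obtain ⟨χ, hχ, hL⟩ := h
  let ψ : D V ⊕ U → V ⊕ (J V ⊕ J V) := fun x => match x with
    | .inl (.inl j) => .inr (.inl j)
    | .inl (.inr p) => .inr (.inr p.1)
    | .inr u => .inl (χ u)
  refine ⟨ψ, ?_, ?_⟩
  · rintro ((i | p) | u) ((j | q) | v) h
    · exact h.elim
    · exact h
    · have h' : L v = i.1 := h
      show χ v ∈ i.1
      rw [← h']
      exact hL v
    · exact h
    · exact h.elim
    · exact h.elim
    · have h' : L u = j.1 := h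
      show χ u ∈ j.1
      rw [← h']
      exact hL u
    · exact h.elim
    · exact hχ _ _ h
  · rintro ⟨w, ⟨(j | j), rfl⟩⟩
    · show (ψ ⁻¹' {.inr (.inl j)}).ncard = 1
      have : ψ ⁻¹' {.inr (.inl j)} = {Sum.inl (Sum.inl j)} := by
        ext x
        rcases x with (i | p) | u <;> simp [ψ]
      rw [this, Set.ncard_singleton]
    · show (ψ ⁻¹' {.inr (.inr j)}).ncard = wt j
      have : ψ ⁻¹' {.inr (.inr j)} =
          Set.range (fun s : Fin (wt j) => (Sum.inl (Sum.inr ⟨j, s⟩) : D V ⊕ U)) := by
        ext x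
        rcases x with (i | ⟨p, s⟩) | u
        · simp [ψ]
        · simp only [Set.mem_preimage, Set.mem_singleton_iff, Sum.inr.injEq, ψ, Set.mem_range,
            Sum.inl.injEq]
          constructor
          · rintro rfl
            exact ⟨s, rfl⟩
          · rintro ⟨y, hy⟩
            exact (congrArg Sigma.fst hy).symm
        · simp [ψ]
      rw [this]
      have hinj : Function.Injective
          (fun s : Fin (wt j) => (Sum.inl (Sum.inr ⟨j, s⟩) : D V ⊕ U)) := by
        intro s t h
        simpa using h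
      rw [← Set.image_univ, Set.ncard_image_of_injective _ hinj, Set.ncard_univ]
      simp

theorem gadget_backward
    (h : ∃ χ : D V ⊕ U → V ⊕ (J V ⊕ J V), (ext F).IsHCKColouring (GGraph G L) χ) :
    ∃ χ : U → V, IsColouring G F χ ∧ ∀ u, χ u ∈ L u := by
  obtain ⟨ψ, hψ, hK⟩ := h
  let _ : Fintype U := Fintype.ofFinite U
  -- anchors have a unique preimage
  have h1 : ∀ j x y, ψ x = .inr (.inl j) → ψ y = .inr (.inl j) → x = y := by
    intro j x y hx hy
    have : (ψ ⁻¹' {.inr (.inl j)}).ncard = 1 := hK ⟨.inr (.inl j), ⟨_, rfl⟩⟩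
    obtain ⟨z, hz⟩ := Set.ncard_eq_one.1 this
    have hx' : x ∈ ψ ⁻¹' {.inr (.inl j)} := hx
    have hy' : y ∈ ψ ⁻¹' {.inr (.inl j)} := hy
    rw [hz] at hx' hy'
    exact hx'.trans hy'.symm
  -- neighbours of vertices coloured by a pendant
  have h2 : ∀ j x y, ψ x = .inr (.inr j) → (GGraph G L).Adj x y → ψ y = .inr (.inl j) := by
    intro j x y hx hxy
    have := hψ x y hxy
    rw [hx] at this
    rcases hy : ψ y with v | i | i
    · rw [hy] at this; exact this.elim
    · rw [hy] at this
      have h' : j = i := this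
      rw [h']
    · rw [hy] at this; exact this.elim
  have h3 : ∀ j x y z, ψ x = .inr (.inr j) → (GGraph G L).Adj x y → (GGraph G L).Adj x z →
      y = z := fun j x y z hx hy hz => h1 j y z (h2 j x y hx hy) (h2 j x z hx hz)
  have h4 : ∀ u j, ψ (.inr u) ≠ .inr (.inr j) := by
    intro u j hu
    have := h3 j _ (.inl (.inl (L u, false))) (.inl (.inl (L u, true))) hu rfl rfl
    simp at this
  have h5 : ∀ i j, ψ (.inl (.inl i)) ≠ .inr (.inr j) := by
    intro i j hi
    have := h3 j _ (.inl (.inr ⟨i, ⟨0, by simp [wt]⟩⟩)) (.inl (.inr ⟨i, ⟨1, by simp [wt]⟩⟩))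
      hi rfl rfl
    simp only [Sum.inl.injEq, Sum.inr.injEq, Sigma.mk.injEq, heq_eq_eq, true_and] at this
    exact absurd (congrArg Fin.val this) (by simp)
  -- counting
  let B : Finset (D V ⊕ U) := Finset.univ.filter (fun x => ∃ j, ψ x = .inr (.inr j))
  let R : Finset (D V ⊕ U) := Finset.univ.image (fun p : (Σ j : J V, Fin (wt j)) =>
    (Sum.inl (Sum.inr p) : D V ⊕ U))
  have hBR : B ⊆ R := by
    intro x hx
    obtain ⟨j, hj⟩ := (Finset.mem_filter.1 hx).2
    rcases x with (i | p) | u
    · exact absurd hj (h5 i j)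
    · exact Finset.mem_image.2 ⟨p, Finset.mem_univ _, rfl⟩
    · exact absurd hj (h4 u j)
  have hBc : B.card = ∑ j : J V, wt j := by
    have e : B = Finset.univ.biUnion
        (fun j : J V => Finset.univ.filter (fun x => ψ x = .inr (.inr j))) := by
      ext x
      simp [B]
    rw [e, Finset.card_biUnion]
    · apply Finset.sum_congr rfl
      intro j _
      have hj : (ψ ⁻¹' {.inr (.inr j)}).ncard = wt j := hK ⟨.inr (.inr j), ⟨_, rfl⟩⟩
      rw [← hj, Set.ncard_eq_toFinset_card']
      congr 1
      ext x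
      simp
    · intro i _ j _ hij
      apply Finset.disjoint_left.2
      intro x hx hx'
      have a := (Finset.mem_filter.1 hx).2
      have b := (Finset.mem_filter.1 hx').2
      rw [a] at b
      apply hij
      simpa using b
  have hRc : R.card = ∑ j : J V, wt j := by
    rw [Finset.card_image_of_injective]
    · simp
    · intro p q h
      simpa using h
  have hBR' : B = R := Finset.eq_of_subset_of_card_le hBR (by rw [hBc, hRc])
  have h6 : ∀ p, ∃ j, ψ (.inl (.inr p)) = .inr (.inr j) := by
    intro p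
    have : (Sum.inl (Sum.inr p) : D V ⊕ U) ∈ B := by
      rw [hBR']
      exact Finset.mem_image.2 ⟨p, Finset.mem_univ _, rfl⟩
    exact (Finset.mem_filter.1 this).2
  -- the permutation `s`
  have h7 : ∀ i : J V, ∃ j, ψ (.inl (.inl i)) = .inr (.inl j) := by
    intro i
    obtain ⟨j, hj⟩ := h6 ⟨i, ⟨0, by simp [wt]⟩⟩
    exact ⟨j, h2 j _ _ hj rfl⟩
  choose s hs using h7
  have h8 : ∀ i t, ψ (.inl (.inr ⟨i, t⟩)) = .inr (.inr (s i)) := by
    intro i t
    obtain ⟨j, hj⟩ := h6 ⟨i, t⟩
    have h := h2 j _ (.inl (.inl i)) hj rfl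
    rw [hs i] at h
    have : s i = j := by simpa using h
    rw [hj, this]
  have hsinj : Function.Injective s := by
    intro i j hij
    have a := hs i
    have b := hs j
    rw [hij] at a
    simpa using h1 _ _ _ a b
  have h9 : ∀ i, wt i ≤ wt (s i) := by
    intro i
    have hj : (ψ ⁻¹' {.inr (.inr (s i))}).ncard = wt (s i) :=
      hK ⟨.inr (.inr (s i)), ⟨_, rfl⟩⟩
    rw [← hj]
    have hinj : Function.Injective
        (fun t : Fin (wt i) => (Sum.inl (Sum.inr ⟨i, t⟩) : D V ⊕ U)) := by
      intro s t h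
      simpa using h
    have e : (Set.range (fun t : Fin (wt i) => (Sum.inl (Sum.inr ⟨i, t⟩) : D V ⊕ U))).ncard =
        wt i := by
      rw [← Set.image_univ, Set.ncard_image_of_injective _ hinj, Set.ncard_univ]
      simp
    rw [← e]
    apply Set.ncard_le_ncard
    · rintro _ ⟨t, rfl⟩
      exact h8 i t
    · exact Set.toFinite _
  have h10 : ∀ i, s i = i := by
    have hbij : Function.Bijective s := Finite.injective_iff_bijective.1 hsinj
    have hsum : ∑ i, wt i = ∑ i, wt (s i) :=
      (Equiv.sum_comp (Equiv.ofBijective s hbij) wt).symm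
    have := (Finset.sum_eq_sum_iff_of_le (fun i _ => h9 i)).1 hsum
    intro i
    exact (wt_injective (this i (Finset.mem_univ i))).symm
  -- the colouring
  have h11 : ∀ u, ∃ v, ψ (.inr u) = .inl v := by
    intro u
    rcases hu : ψ (.inr u) with v | j | j
    · exact ⟨v, rfl⟩
    · have a := hs j
      rw [h10] at a
      have := h1 _ _ _ hu a
      simp at this
    · exact absurd hu (h4 u j)
  choose χ hχ using h11
  refine ⟨χ, ?_, ?_⟩
  · intro u v huv
    have := hψ (.inr u) (.inr v) huv
    rw [hχ, hχ] at this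
    exact this
  · intro u
    have := hψ (.inr u) (.inl (.inl (L u, false))) rfl
    rw [hχ, hs, h10] at this
    exact this

theorem gadget_iff :
    (∃ χ : U → V, IsColouring G F χ ∧ ∀ u, χ u ∈ L u) ↔
    ∃ χ : D V ⊕ U → V ⊕ (J V ⊕ J V), (ext F).IsHCKColouring (GGraph G L) χ :=
  ⟨gadget_forward F G L, gadget_backward F G L⟩

end

end Pool.Agent.Helper32_HCK
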