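import Pool.Agent.Helper32_HCK.VerifyProg

/-!
# The `(H,C,K)`-colouring problem is in NP
-/

namespace Pool.Agent.Helper32_HCK

open Classical Function Pool.Agent.Helper32_Poly

theorem count_ofFn {W : Type} {n : ℕ} (χ : Fin n → W) (a : W) :
    (List.ofFn χ).count a = (χ ⁻¹' {a}).ncard := by
  rw [Set.ncard_eq_toFinset_card', List.ofFn_eq_map, List.count, List.countP_map]
  rw [List.countP_eq_length_filter]
  have : (χ ⁻¹' {a}).toFinset = Finset.univ.filter (fun i => χ i = a) := by
    ext i; simp
  rw [this, Finset.card_def, Finset.filter_val, Fin.univ_def]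
  simp [Function.comp_def, beq_eq_decide]

/-- reversed row bits, indexed by natural numbers -/
noncomputable def bitsN (x : Σ n : ℕ, LoopGraph (Fin n)) (k : ℕ) : List Bool :=
  if h : k < x.1 then (rowBits x.2 ⟨k, h⟩).reverse else []

theorem bitsN_length (x : Σ n : ℕ, LoopGraph (Fin n)) : ∀ k < x.1,
    (bitsN x k).length = k + 1 := by
  intro k hk
  simp [bitsN, hk, rowBits]

theorem bitsN_get (x : Σ n : ℕ, LoopGraph (Fin n)) (k : ℕ) (hk : k < x.1) (i : ℕ)
    (hi : i < (bitsN x k).length) :
    (bitsN x k)[i] = true ↔ x.2.Adj ⟨k, hk⟩ ⟨k - i, by omega⟩ := by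
  have hi' : i < k + 1 := by
    have := bitsN_length x k hk
    omega
  simp only [bitsN, hk, dif_pos, rowBits]
  rw [List.getElem_reverse]
  simp only [List.getElem_ofFn, List.length_ofFn, decide_eq_true_eq]
  have e : Fin.castLE (Fin.isLt (⟨k, hk⟩ : Fin x.1))
      (⟨k + 1 - 1 - i, by omega⟩ : Fin (k + 1)) = ⟨k - i, by omega⟩ := by
    ext; simp
  rw [e]

theorem rowsLetters_eq {W : Type} (bits : ℕ → List Bool) : ∀ m : ℕ,
    (((List.range m).flatMap (fun k => (none : Option Bool) ::
      (bits k).reverse.map some)).map (Sum.inl : Option Bool → Option Bool ⊕ W)).reverse =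
      rowsLetters bits m
  | 0 => rfl
  | m + 1 => by
    have ih := rowsLetters_eq (W := W) bits m
    rw [List.range_succ, List.flatMap_append, List.map_append, List.reverse_append, ih]
    simp [rowsLetters, rowLetters, List.map_reverse, Function.comp_def]

theorem encodeGraph_eq (x : Σ n : ℕ, LoopGraph (Fin n)) :
    encodeGraph x = (List.range x.1).flatMap (fun k => (none : Option Bool) ::
      (bitsN x k).reverse.map some) := by
  have h : List.range x.1 = (List.finRange x.1).map Fin.val := by
    rw [List.map_coe_finRange_eq_range]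
  rw [h, List.flatMap_map]
  unfold encodeGraph
  congr 1
  funext u
  simp [bitsN]

theorem fold_inr {W : Type} (adj : W → W → Prop) {M : ℕ} : ∀ (l : List W) (s : VS W M),
    (l.map (fun c => (Sum.inr c : Option Bool ⊕ W))).foldl (vstep adj) s =
      { s with w := l.reverse ++ s.w }
  | [], s => by simp
  | c :: l, s => by
    rw [List.map_cons, List.foldl_cons, fold_inr adj l]
    simp [vstep]

section

variable {W : Type} [Fintype W] (T : PartialWeightedAssignment W)

/-- bound for the weights -/
noncomputable def bnd : ℕ := ∑ a : T.C, T.K a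

theorem le_bnd (a : T.C) : T.K a ≤ bnd T :=
  Finset.single_le_sum (f := fun a => T.K a) (fun _ _ => Nat.zero_le _) (Finset.mem_univ a)

/-- acceptance condition -/
noncomputable def accept (s : Ctl W (bnd T)) : Bool :=
  s.2.1 && decide (∀ a : T.C, (s.2.2 a.val).val = T.K a)

theorem accept_iff (s : Ctl W (bnd T)) :
    accept T s = true ↔ s.2.1 = true ∧ ∀ a : T.C, (s.2.2 a.val).val = T.K a := by
  unfold accept
  simp

/-- encoding of a graph together with a certificate -/
noncomputable def encP {W : Type} (x : (Σ n : ℕ, LoopGraph (Fin n)) × List W) :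
    List (Option Bool ⊕ W) :=
  (encodeGraph x.1).map Sum.inl ++ x.2.map Sum.inr

/-- the verifier as a function -/
noncomputable def verify (x : (Σ n : ℕ, LoopGraph (Fin n)) × List W) : Bool :=
  accept T ((encP x).reverse.foldl (vstep T.H.Adj) (vinit : VS W (bnd T))).ctl

/-- the verifier is polynomial-time computable -/
noncomputable def verifyComputable :
    Turing.TM2ComputableInPolyTime encP Computability.encodeBool (verify T) :=
  letI : Fintype (Mem W (bnd T)) := inferInstance
  letI : Fintype (G5 W K5.inp) := inferInstanceAs (Fintype (Option Bool ⊕ W))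
  Prog.decidable (Γ := G5 W) encP (verify T)
    (none, none, (vinit : VS W (bnd T)).ctl) K5.inp K5.out
    (vprog T.H.Adj) (Equiv.refl (Option Bool ⊕ W)) (Equiv.refl Bool)
    (fun v => accept T v.2.2)
    (Polynomial.X * (Polynomial.X * ((2 * Fintype.card W + 3 : ℕ) : Polynomial ℕ) +
        ((4 * Fintype.card (Option Bool ⊕ W) + 2 * Fintype.card W + 30 : ℕ) : Polynomial ℕ)) + 4)
    (by
      intro a
      obtain ⟨t, v', S', ht, hv, hr⟩ := vprog_run (M := bnd T) T.H.Adj (encP a)
      refine ⟨t, v', S', ?_, ?_, ?_⟩
      · simp only [Polynomial.eval_add, Polynomial.eval_mul, Polynomial.eval_X,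
          Polynomial.eval_natCast, Polynomial.eval_ofNat, Nat.cast_id]
        exact ht
      · rw [hv]; rfl
      · have e : ∀ l : List (Option Bool ⊕ W),
            update (fun _ => [] : ∀ k, List (G5 W k)) K5.inp
              (List.map (⇑(Equiv.refl (Option Bool ⊕ W)).symm) l) = S5 l [] [] [] := by
          intro l
          have : List.map (⇑(Equiv.refl (Option Bool ⊕ W)).symm) l = l := List.map_id l
          rw [this, S5_zero]
        rw [← e] at hr
        exact hr)

theorem fold_encPair (x : Σ n : ℕ, LoopGraph (Fin n)) (cs : List W) :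
    (encP (x, cs)).reverse.foldl (vstep T.H.Adj) (vinit : VS W (bnd T)) =
    (rowsLetters (bitsN x) x.1).foldl (vstep T.H.Adj)
      (⟨none, true, fun _ => 0, cs, []⟩ : VS W (bnd T)) := by
  unfold encP
  simp only
  rw [encodeGraph_eq, List.reverse_append, List.foldl_append, rowsLetters_eq]
  congr 1
  have h2 : (cs.map (Sum.inr : W → Option Bool ⊕ W)).reverse =
      cs.reverse.map (fun c => (Sum.inr c : Option Bool ⊕ W)) := by
    rw [List.map_reverse]
  rw [h2, fold_inr]
  simp [vinit]

theorem verify_iff (x : Σ n : ℕ, LoopGraph (Fin n)) (cs : List W) :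
    verify T (x, cs) = true ↔ ∃ χ : Fin x.1 → W, cs.take x.1 = (List.ofFn χ).reverse ∧
      T.IsHCKColouring x.2 χ := by
  unfold verify
  rw [fold_encPair, accept_iff]
  obtain ⟨n, G⟩ := x
  simp only [VS.ctl]
  have h1 := fold_rows_ok T.H.Adj (M := bnd T) (bitsN ⟨n, G⟩) n (bitsN_length ⟨n, G⟩) n le_rfl
    true (fun _ => 0) cs
  rw [h1, Bool.true_and, allRows_iff]
  constructor
  · rintro ⟨⟨hn, hrows⟩, hcnt⟩
    have h2 := fold_rows_cnt T.H.Adj (M := bnd T) (bitsN ⟨n, G⟩) n (bitsN_length ⟨n, G⟩) n le_rfl
      true (fun _ => 0) cs hn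
    rw [h2] at hcnt
    let χ : Fin n → W := fun u => cs[n - 1 - u.val]'(by omega)
    have hχ : cs.take n = (List.ofFn χ).reverse := by
      apply List.ext_getElem
      · simp [hn]
      · intro i h₁ h₂
        simp only [List.length_take, List.length_reverse, List.length_ofFn] at h₁ h₂
        rw [List.getElem_take, List.getElem_reverse]
        simp only [List.getElem_ofFn, List.length_ofFn, χ]
        congr 1
        omega
    refine ⟨χ, hχ, ?_, ?_⟩
    · have key : ∀ u v : Fin n, v.val ≤ u.val → G.Adj u v → T.H.Adj (χ u) (χ v) := by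
        intro u v huv h
        obtain ⟨h3, h4⟩ := hrows u.val u.isLt
        have hlen : (bitsN ⟨n, G⟩ u.val).length = u.val + 1 :=
          bitsN_length ⟨n, G⟩ u.val u.isLt
        have h5 := h4 (u.val - v.val) (by omega) (by omega) (by omega) (by
          rw [bitsN_get ⟨n, G⟩ u.val u.isLt (u.val - v.val) (by omega)]
          have e : (⟨u.val - (u.val - v.val), by omega⟩ : Fin n) = v := by
            ext; simp only; omega
          simp only
          rw [e]
          exact h)
        have e2 : n - 1 - u.val + (u.val - v.val) = n - 1 - v.val := by omega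
        simp only [e2] at h5
        exact h5
      intro u v h
      rcases le_total v.val u.val with huv | huv
      · exact key u v huv h
      · exact T.H.symm _ _ (key v u huv (G.symm _ _ h))
    · intro a
      have h5 := hcnt a
      rw [foldl_bump, hχ, List.count_reverse, count_ofFn] at h5
      have h6 := le_bnd T a
      simp only [Fin.val_zero, Nat.zero_add] at h5
      omega
  · rintro ⟨χ, hχ, hcol, hK⟩
    have hn : n ≤ cs.length := by
      have := congrArg List.length hχ
      simp only [List.length_take, List.length_reverse, List.length_ofFn] at this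
      omega
    have hget : ∀ i (hi : i < n) (hi' : i < cs.length),
        cs[i] = χ ⟨n - 1 - i, by omega⟩ := by
      intro i hi hi'
      have h3 : (cs.take n)[i]'(by simp; omega) = cs[i] := List.getElem_take
      rw [← h3]
      simp only [hχ]
      rw [List.getElem_reverse]
      simp
    refine ⟨⟨hn, ?_⟩, ?_⟩
    · intro u hu
      have hlen : (bitsN ⟨n, G⟩ u).length = u + 1 := bitsN_length ⟨n, G⟩ u hu
      refine ⟨by omega, ?_⟩
      intro i hi h₂ h₃ hbit
      rw [bitsN_get ⟨n, G⟩ u hu i hi] at hbit
      rw [hget _ (by omega) h₂, hget _ (by omega) h₃]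
      have h4 := hcol _ _ hbit
      have e1 : (⟨n - 1 - (n - 1 - u), by omega⟩ : Fin n) = ⟨u, hu⟩ := by
        ext; simp only; omega
      have e2 : (⟨n - 1 - (n - 1 - u + i), by omega⟩ : Fin n) = ⟨u - i, by omega⟩ := by
        ext; simp only; omega
      rw [e1, e2]
      exact h4
    · have h2 := fold_rows_cnt T.H.Adj (M := bnd T) (bitsN ⟨n, G⟩) n (bitsN_length ⟨n, G⟩) n
        le_rfl true (fun _ => 0) cs hn
      rw [h2]
      intro a
      rw [foldl_bump, hχ, List.count_reverse, count_ofFn, hK a]
      have h6 := le_bnd T a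
      simp only [Fin.val_zero, Nat.zero_add]
      omega

theorem encodeGraph_length_ge (x : Σ n : ℕ, LoopGraph (Fin n)) :
    x.1 ≤ (encodeGraph x).length := by
  rw [encodeGraph_eq, List.length_flatMap]
  have : ∀ m, m ≤ ((List.range m).map (fun k => ((none : Option Bool) ::
      (bitsN x k).reverse.map some).length)).sum := by
    intro m
    induction m with
    | zero => simp
    | succ m ih =>
      rw [List.range_succ, List.map_append, List.sum_append]
      simp only [List.length_cons, List.map_cons, List.map_nil, List.sum_cons,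
        List.sum_nil] at ih ⊢
      omega
  exact this x.1

/-- Every `(H,C,K)`-colouring problem is in NP. -/
theorem hck_inNP : InNP T.colouringProblem := by
  have key : ∀ x : (Σ n : ℕ, LoopGraph (Fin n)), (∃ χ : Fin x.1 → W, T.IsHCKColouring x.2 χ) ↔
      ∃ c : List W, c.length ≤ (Polynomial.X : Polynomial ℕ).eval (encodeGraph x).length ∧
        verify T (x, c) = true := by
    intro x
    constructor
    · rintro ⟨χ, hχ⟩
      refine ⟨(List.ofFn χ).reverse, ?_, ?_⟩
      · simp only [List.length_reverse, List.length_ofFn, Polynomial.eval_X]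
        exact encodeGraph_length_ge x
      · rw [verify_iff]
        refine ⟨χ, ?_, hχ⟩
        rw [List.take_of_length_le]
        simp
    · rintro ⟨cs, -, h⟩
      rw [verify_iff] at h
      obtain ⟨χ, -, hχ⟩ := h
      exact ⟨χ, hχ⟩
  exact ⟨W, inferInstance, verify T, Polynomial.X, ⟨verifyComputable T⟩, key⟩

end

end Pool.Agent.Helper32_HCK
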