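import Pool.Agent.Helper32_HCK.Gadget
import Pool.Agent.Helper32_Poly.Morphism
import Pool.Agent.Helper32_Poly.Comp

/-!
# The reduction is polynomial-time computable
-/

namespace Pool.Agent.Helper32_HCK

open Classical

/-- transport of a graph along an equivalence -/
def LoopGraph.comap {U U' : Type} (G : LoopGraph U) (f : U' → U) : LoopGraph U' where
  Adj := fun x y => G.Adj (f x) (f y)
  symm := fun _ _ h => G.symm _ _ h

theorem hck_transport {U U' W : Type} (T : PartialWeightedAssignment W) (G : LoopGraph U)
    (e : U' ≃ U) :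
    (∃ χ : U → W, T.IsHCKColouring G χ) ↔ (∃ χ : U' → W, T.IsHCKColouring (G.comap e) χ) := by
  constructor
  · rintro ⟨χ, h1, h2⟩
    refine ⟨χ ∘ e, fun u v huv => h1 _ _ huv, fun a => ?_⟩
    rw [← h2 a, Set.preimage_comp]
    have : e ⁻¹' (χ ⁻¹' {a.val}) = e.symm '' (χ ⁻¹' {a.val}) := by
      rw [Equiv.image_symm_eq_preimage]
    rw [this, Set.ncard_image_of_injective _ e.symm.injective]
  · rintro ⟨χ, h1, h2⟩
    refine ⟨χ ∘ e.symm, fun u v huv => h1 _ _ ?_, fun a => ?_⟩
    · show G.Adj (e (e.symm u)) (e (e.symm v))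
      simpa using huv
    · rw [← h2 a, Set.preimage_comp]
      have : e.symm ⁻¹' (χ ⁻¹' {a.val}) = e '' (χ ⁻¹' {a.val}) := by
        rw [Equiv.image_eq_preimage_symm]
      rw [this, Set.ncard_image_of_injective _ e.injective]

variable {V : Type} [Fintype V]

/-- number of gadget vertices -/
noncomputable def cD (V : Type) [Fintype V] : ℕ := Fintype.card (D V)

/-- enumeration of gadget vertices -/
noncomputable def eD : D V ≃ Fin (cD V) := Fintype.equivFin _

/-- adjacency inside the gadget -/
def DAdj : D V → D V → Prop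
  | .inl i, .inr p => i = p.1
  | .inr p, .inl j => p.1 = j
  | _, _ => False

/-- adjacency between a gadget vertex and a vertex with list `S` -/
def AAdj : D V → Set V → Prop
  | .inl j, S => S = j.1
  | .inr _, _ => False

/-- the gadget as a graph -/
noncomputable def DGraph (V : Type) [Fintype V] : LoopGraph (Fin (cD V)) where
  Adj := fun i j => DAdj (eD.symm i) (eD.symm j)
  symm := by
    have key : ∀ a b : D V, DAdj a b → DAdj b a := by
      rintro (a | p) (b | q) h
      · exact h.elim
      · exact Eq.symm h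
      · exact Eq.symm h
      · exact h.elim
    exact fun i j h => key _ _ h

/-- enumeration of the vertices of the source graph -/
noncomputable def eG (n : ℕ) : Fin (cD V + n) ≃ D V ⊕ Fin n :=
  finSumFinEquiv.symm.trans (Equiv.sumCongr eD.symm (Equiv.refl _))

theorem eG_castAdd (n : ℕ) (i : Fin (cD V)) : eG (V := V) n (Fin.castAdd n i) =
    Sum.inl (eD.symm i) := by
  simp [eG]

theorem eG_natAdd (n : ℕ) (i : Fin n) : eG (V := V) n (Fin.natAdd (cD V) i) = Sum.inr i := by
  simp [eG]

/-- the reduction -/
noncomputable def red (x : ListInstance V) : Σ n : ℕ, LoopGraph (Fin n) :=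
  ⟨cD V + x.n, (GGraph x.G x.L).comap (eG x.n)⟩

theorem red_iff (F : LoopGraph V) (x : ListInstance V) :
    (listColouringProblem F).Yes x ↔ (ext F).colouringProblem.Yes (red x) :=
  (gadget_iff F x.G x.L).trans (hck_transport (ext F) (GGraph x.G x.L) (eG x.n))

/-- image of the letters under the morphism -/
noncomputable def hmor : Set V ⊕ Bool → List (Option Bool)
  | .inl S => none :: (List.ofFn fun i : Fin (cD V) => some (decide (AAdj (eD.symm i) S)))
  | .inr b => [some b]

theorem finRange_add (m n : ℕ) : List.finRange (m + n) =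
    (List.finRange m).map (Fin.castAdd n) ++ (List.finRange n).map (Fin.natAdd m) := by
  rw [← List.ofFn_id, List.ofFn_add, List.ofFn_eq_map, List.ofFn_eq_map]
  rfl

theorem row_castAdd (x : ListInstance V) (i : Fin (cD V)) :
    rowBits ((GGraph x.G x.L).comap (eG x.n)) (Fin.castAdd x.n i) = rowBits (DGraph V) i := by
  unfold rowBits
  congr 1
  funext v
  apply decide_eq_decide.2
  have h1 : Fin.castLE (Fin.castAdd x.n i).isLt v =
      Fin.castAdd x.n (Fin.castLE i.isLt v) := by
    ext; simp
  show (GGraph x.G x.L).Adj (eG x.n (Fin.castAdd x.n i))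
    (eG x.n (Fin.castLE (Fin.castAdd x.n i).isLt v)) ↔ _
  rw [h1, eG_castAdd, eG_castAdd]
  show _ ↔ DAdj (eD.symm i) (eD.symm (Fin.castLE i.isLt v))
  rcases eD.symm i with a | p <;> rcases eD.symm (Fin.castLE i.isLt v) with b | q <;> exact Iff.rfl

theorem row_natAdd (x : ListInstance V) (u : Fin x.n) :
    rowBits ((GGraph x.G x.L).comap (eG x.n)) (Fin.natAdd (cD V) u) =
      (List.ofFn fun i : Fin (cD V) => decide (AAdj (eD.symm i) (x.L u))) ++ rowBits x.G u := by
  have h0 : rowBits ((GGraph x.G x.L).comap (eG x.n)) (Fin.natAdd (cD V) u) =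
    List.ofFn (n := cD V + (u.val + 1)) (fun v => decide ((GGraph x.G x.L).Adj
      (eG x.n (Fin.natAdd (cD V) u))
        (eG x.n (Fin.castLE (Fin.natAdd (cD V) u).isLt v)))) := rfl
  rw [h0, List.ofFn_add]
  congr 1
  · congr 1
    funext i
    apply decide_eq_decide.2
    have h1 : Fin.castLE (Fin.natAdd (cD V) u).isLt
        (Fin.castLE (Nat.le_add_right (cD V) (u.val + 1)) i) = Fin.castAdd x.n i := by
      ext; simp
    rw [h1, eG_natAdd, eG_castAdd]
    rcases eD.symm i with a | p <;> exact Iff.rfl
  · unfold rowBits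
    congr 1
    funext v
    apply decide_eq_decide.2
    have h1 : Fin.castLE (Fin.natAdd (cD V) u).isLt (Fin.natAdd (cD V) v) =
        Fin.natAdd (cD V) (Fin.castLE u.isLt v) := by
      ext; simp
    rw [h1, eG_natAdd, eG_natAdd]
    exact Iff.rfl

theorem red_encode (x : ListInstance V) :
    encodeGraph (red x) = encodeGraph ⟨cD V, DGraph V⟩ ++ (encodeListInstance x).flatMap hmor := by
  have h1 : encodeGraph (red x) = (List.finRange (cD V + x.n)).flatMap fun u =>
    none :: (rowBits ((GGraph x.G x.L).comap (eG x.n)) u).map some := rfl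
  rw [h1, finRange_add, List.flatMap_append, List.flatMap_map, List.flatMap_map]
  congr 1
  · unfold encodeGraph
    simp only [row_castAdd]
  · unfold encodeListInstance
    rw [List.flatMap_assoc]
    congr 1
    funext u
    rw [row_natAdd, List.flatMap_cons, List.flatMap_map]
    simp [hmor, Function.comp_def, List.map_ofFn]
    induction rowBits x.G u with
    | nil => rfl
    | cons b l ih => simp [ih]

/-- The reduction is computable in polynomial time. -/
noncomputable def redComputable (F : LoopGraph V) :
    Turing.TM2ComputableInPolyTime (listColouringProblem F).enc (ext F).colouringProblem.enc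
      (red (V := V)) :=
  letI : Fintype (Set V ⊕ Bool) := Fintype.ofFinite _
  Helper32_Poly.morphComputable (A := Set V ⊕ Bool) (B := Option Bool) encodeListInstance
    encodeGraph (red (V := V)) (encodeGraph ⟨cD V, DGraph V⟩) hmor red_encode

theorem polyReduces_comp {P Q R : DecisionProblem} (h₁ : PolyReduces P Q)
    (h₂ : PolyReduces Q R) : PolyReduces P R := by
  obtain ⟨f, ⟨cf⟩, hf⟩ := h₁
  obtain ⟨g, ⟨cg⟩, hg⟩ := h₂
  exact ⟨g ∘ f, Helper32_Poly.TM2ComputableInPolyTime.comp cf cg,
    fun x => (hf x).trans (hg (f x))⟩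

theorem list_reduces (F : LoopGraph V) :
    PolyReduces (listColouringProblem F) (ext F).colouringProblem :=
  ⟨red, ⟨redComputable F⟩, red_iff F⟩

end Pool.Agent.Helper32_HCK
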