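import Pool.Agent.Helper32_HCK.Defs

/-!
# The verifier for `(H,C,K)`-colourings, as a fold
-/

namespace Pool.Agent.Helper32_HCK

open Classical

variable {W : Type} (adj : W → W → Prop) {M : ℕ}

/-- abstract state of the verifier -/
structure VS (W : Type) (M : ℕ) where
  cur : Option W
  ok : Bool
  cnt : W → Fin (M + 2)
  w : List W
  d : List W

/-- increase a capped counter -/
noncomputable def bump (f : W → Fin (M + 2)) (c : W) : W → Fin (M + 2) :=
  Function.update f c ⟨min (M + 1) ((f c).val + 1), by omega⟩

/-- one step of the verifier -/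
noncomputable def vstep (s : VS W M) : Option Bool ⊕ W → VS W M
  | .inr c => { s with w := c :: s.w }
  | .inl none =>
    { cur := none, ok := s.ok,
      cnt := match s.cur with
        | none => s.cnt
        | some c => bump s.cnt c,
      w := (s.d.reverse ++ s.w).tail, d := [] }
  | .inl (some b) =>
    match s.w with
    | [] => { s with ok := false }
    | c :: w' => { s with
        cur := some (s.cur.getD c),
        ok := s.ok && (!b || decide (adj (s.cur.getD c) c)),
        w := w', d := c :: s.d }

/-- check of one row -/
noncomputable def rowCheck (c₀ : W) : List Bool → List W → Bool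
  | [], _ => true
  | _ :: _, [] => false
  | b :: bs, c :: ws => (!b || decide (adj c₀ c)) && rowCheck c₀ bs ws

/-- check of all rows -/
noncomputable def allRows (bits : ℕ → List Bool) : ℕ → List W → Bool
  | 0, _ => true
  | _ + 1, [] => false
  | k + 1, c :: ws => rowCheck adj c (bits k) (c :: ws) && allRows bits k ws

/-- initial state -/
def vinit : VS W M := ⟨none, true, fun _ => 0, [], []⟩

theorem vstep_ok_false (s : VS W M) (h : s.ok = false) (a : Option Bool ⊕ W) :
    (vstep adj s a).ok = false := by
  rcases a with (_ | b) | c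
  · simp [vstep, h]
  · rcases hw : s.w with _ | ⟨c, w'⟩
    · simp [vstep, hw]
    · simp [vstep, hw, h]
  · simp [vstep, h]

theorem fold_ok_false (l : List (Option Bool ⊕ W)) : ∀ (s : VS W M), s.ok = false →
    (l.foldl (vstep adj) s).ok = false := by
  induction l with
  | nil => intro s h; exact h
  | cons a l ih => intro s h; exact ih _ (vstep_ok_false adj s h a)

theorem fold_bits (c₀ : W) : ∀ (bs : List Bool) (s : VS W M), s.cur = some c₀ →
    bs.length ≤ s.w.length →
    (bs.map (fun b => (Sum.inl (some b) : Option Bool ⊕ W))).foldl (vstep adj) s =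
      { cur := some c₀, ok := s.ok && rowCheck adj c₀ bs s.w, cnt := s.cnt,
        w := s.w.drop bs.length, d := (s.w.take bs.length).reverse ++ s.d }
  | [], ⟨cur, ok, cnt, w, d⟩, hc, _ => by
    simp only at hc
    simp [rowCheck, hc]
  | b :: bs, ⟨cur, ok, cnt, w, d⟩, hc, hl => by
    simp only at hc hl
    subst hc
    rcases w with _ | ⟨c, w⟩
    · simp at hl
    · rw [List.map_cons, List.foldl_cons]
      have e : vstep adj (M := M) ⟨some c₀, ok, cnt, c :: w, d⟩ (Sum.inl (some b)) =
        ⟨some c₀, ok && (!b || decide (adj c₀ c)), cnt, w, c :: d⟩ := by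
        simp [vstep]
      rw [e, fold_bits c₀ bs _ rfl (by simpa using hl)]
      simp [rowCheck, Bool.and_assoc]

theorem fold_bits_short (c₀ : W) : ∀ (bs : List Bool) (s : VS W M), s.cur = some c₀ →
    s.w.length < bs.length →
    ((bs.map (fun b => (Sum.inl (some b) : Option Bool ⊕ W))).foldl (vstep adj) s).ok =
      false
  | [], s, _, h => by simp at h
  | b :: bs, ⟨cur, ok, cnt, w, d⟩, hc, hl => by
    simp only at hc hl
    subst hc
    rw [List.map_cons, List.foldl_cons]
    rcases w with _ | ⟨c, w⟩
    · apply fold_ok_false
      simp [vstep]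
    · have e : vstep adj (M := M) ⟨some c₀, ok, cnt, c :: w, d⟩ (Sum.inl (some b)) =
        ⟨some c₀, ok && (!b || decide (adj c₀ c)), cnt, w, c :: d⟩ := by
        simp [vstep]
      rw [e]
      exact fold_bits_short c₀ bs _ rfl (by simpa using hl)

theorem rowCheck_short (c₀ : W) : ∀ (bs : List Bool) (ws : List W), ws.length < bs.length →
    rowCheck adj c₀ bs ws = false
  | [], _, h => by simp at h
  | _ :: _, [], _ => rfl
  | b :: bs, c :: ws, h => by
    simp only [rowCheck]
    rw [rowCheck_short c₀ bs ws (by simpa using h)]
    simp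

/-- letters of a row read backwards -/
def rowLetters (bs : List Bool) : List (Option Bool ⊕ W) :=
  bs.map (fun b => Sum.inl (some b)) ++ [Sum.inl none]

theorem fold_row (bs : List Bool) (hbs : bs ≠ []) (ok : Bool) (cnt : W → Fin (M + 2))
    (c : W) (ws : List W) (h : bs.length ≤ ws.length + 1) :
    (rowLetters bs).foldl (vstep adj) (⟨none, ok, cnt, c :: ws, []⟩ : VS W M) =
      ⟨none, ok && rowCheck adj c bs (c :: ws), bump cnt c, ws, []⟩ := by
  rcases bs with _ | ⟨b, bs⟩
  · exact absurd rfl hbs
  · unfold rowLetters
    have e : vstep adj (M := M) ⟨none, ok, cnt, c :: ws, []⟩ (Sum.inl (some b)) =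
      ⟨some c, ok && (!b || decide (adj c c)), cnt, ws, [c]⟩ := by
      simp [vstep]
    simp only [List.foldl_append, List.map_cons, List.foldl_cons, List.foldl_nil]
    rw [e, fold_bits adj c bs _ rfl (by simpa using h)]
    simp [vstep, rowCheck, Bool.and_assoc]

theorem fold_row_short (bs : List Bool) (ok : Bool) (cnt : W → Fin (M + 2))
    (ws : List W) (h : ws.length < bs.length) :
    ((rowLetters bs).foldl (vstep adj) (⟨none, ok, cnt, ws, []⟩ : VS W M)).ok = false := by
  rcases bs with _ | ⟨b, bs⟩
  · simp at h
  · unfold rowLetters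
    rw [List.foldl_append]
    apply fold_ok_false
    rw [List.map_cons, List.foldl_cons]
    rcases ws with _ | ⟨c, ws⟩
    · apply fold_ok_false
      simp [vstep]
    · have e : vstep adj (M := M) ⟨none, ok, cnt, c :: ws, []⟩ (Sum.inl (some b)) =
        ⟨some c, ok && (!b || decide (adj c c)), cnt, ws, [c]⟩ := by
        simp [vstep]
      rw [e]
      exact fold_bits_short adj c bs _ rfl (by simpa using h)

/-- rows `k-1, …, 0` -/
def rowsLetters (bits : ℕ → List Bool) : ℕ → List (Option Bool ⊕ W)
  | 0 => []
  | k + 1 => rowLetters (bits k) ++ rowsLetters bits k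

theorem fold_rows_ok (bits : ℕ → List Bool) (n : ℕ) (hb : ∀ k < n, (bits k).length = k + 1) :
    ∀ k ≤ n, ∀ (ok : Bool) (cnt : W → Fin (M + 2)) (ws : List W),
    ((rowsLetters bits k).foldl (vstep adj) (⟨none, ok, cnt, ws, []⟩ : VS W M)).ok =
      (ok && allRows adj bits k ws) := by
  intro k
  induction k with
  | zero => intro _ ok cnt ws; simp [rowsLetters, allRows]
  | succ k ih =>
    intro hk ok cnt ws
    have hbk := hb k (by omega)
    simp only [rowsLetters]
    rw [List.foldl_append]
    by_cases hs : ws.length < k + 1
    · rw [fold_ok_false]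
      · rcases ws with _ | ⟨c, ws⟩
        · simp [allRows]
        · simp only [allRows]
          rw [rowCheck_short adj c (bits k) (c :: ws) (by rw [hbk]; exact hs)]
          simp
      · exact fold_row_short adj (bits k) ok cnt ws (by rw [hbk]; exact hs)
    · rcases ws with _ | ⟨c, ws⟩
      · simp at hs
      · rw [fold_row adj (bits k) (by intro h; rw [h] at hbk; simp at hbk) ok cnt c ws
          (by rw [hbk]; simpa using hs)]
        rw [ih (by omega)]
        simp [allRows, Bool.and_assoc]

theorem fold_rows_cnt (bits : ℕ → List Bool) (n : ℕ) (hb : ∀ k < n, (bits k).length = k + 1) :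
    ∀ k ≤ n, ∀ (ok : Bool) (cnt : W → Fin (M + 2)) (ws : List W), k ≤ ws.length →
    ((rowsLetters bits k).foldl (vstep adj) (⟨none, ok, cnt, ws, []⟩ : VS W M)).cnt =
      (ws.take k).foldl bump cnt := by
  intro k
  induction k with
  | zero => intro _ ok cnt ws _; simp [rowsLetters]
  | succ k ih =>
    intro hk ok cnt ws hl
    have hbk := hb k (by omega)
    simp only [rowsLetters]
    rw [List.foldl_append]
    rcases ws with _ | ⟨c, ws⟩
    · simp at hl
    · rw [fold_row adj (bits k) (by intro h; rw [h] at hbk; simp at hbk) ok cnt c ws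
        (by rw [hbk]; simpa using hl)]
      rw [ih (by omega) _ _ _ (by simpa using hl)]
      simp

theorem foldl_bump (l : List W) : ∀ (f : W → Fin (M + 2)) (a : W),
    ((l.foldl bump f) a).val = min (M + 1) ((f a).val + l.count a) := by
  induction l with
  | nil => intro f a; have := (f a).isLt; simp; omega
  | cons c l ih =>
    intro f a
    rw [List.foldl_cons, ih]
    by_cases h : a = c
    · subst h
      simp only [bump, Function.update_self, List.count_cons_self]
      omega
    · simp [bump, h, Ne.symm h]

theorem rowCheck_iff (c₀ : W) : ∀ (bs : List Bool) (ws : List W),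
    rowCheck adj c₀ bs ws = true ↔ bs.length ≤ ws.length ∧
      ∀ i (h₁ : i < bs.length) (h₂ : i < ws.length), bs[i] = true → adj c₀ ws[i]
  | [], ws => by simp [rowCheck]
  | b :: bs, [] => by simp [rowCheck]
  | b :: bs, c :: ws => by
    simp only [rowCheck, Bool.and_eq_true, Bool.or_eq_true, Bool.not_eq_true',
      decide_eq_true_eq]
    rw [rowCheck_iff c₀ bs ws]
    constructor
    · rintro ⟨h1, h2, h3⟩
      refine ⟨by simpa using h2, ?_⟩
      intro i h₁ h₂ hi
      rcases i with _ | i
      · simp only [List.getElem_cons_zero] at hi ⊢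
        rcases h1 with h1 | h1
        · rw [h1] at hi; cases hi
        · exact h1
      · simp only [List.getElem_cons_succ] at hi ⊢
        exact h3 i _ _ hi
    · rintro ⟨h2, h3⟩
      refine ⟨?_, by simpa using h2, ?_⟩
      · have := h3 0 (by simp) (by simp)
        simp only [List.getElem_cons_zero] at this
        by_cases hb : b = true
        · right; exact this hb
        · left; simpa using hb
      · intro i h₁ h₂ hi
        have := h3 (i + 1) (by simpa using h₁) (by simpa using h₂)
        simp only [List.getElem_cons_succ] at this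
        exact this hi

theorem allRows_iff (bits : ℕ → List Bool) : ∀ (k : ℕ) (ws : List W),
    allRows adj bits k ws = true ↔ k ≤ ws.length ∧ ∀ u, u < k → (bits u).length ≤
      ws.length - (k - 1 - u) ∧
      ∀ i (_ : i < (bits u).length) (h₂ : k - 1 - u < ws.length)
        (h₃ : k - 1 - u + i < ws.length),
        (bits u)[i] = true → adj ws[k - 1 - u] ws[k - 1 - u + i]
  | 0, ws => by simp [allRows]
  | k + 1, [] => by simp [allRows]
  | k + 1, c :: ws => by
    simp only [allRows, Bool.and_eq_true]
    rw [rowCheck_iff, allRows_iff bits k ws]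
    constructor
    · rintro ⟨⟨h1, h2⟩, h3, h4⟩
      refine ⟨by simpa using h3, ?_⟩
      intro u hu
      by_cases huk : u = k
      · subst huk
        have e : u + 1 - 1 - u = 0 := by omega
        refine ⟨by rw [e]; simpa using h1, ?_⟩
        intro i hi₁ hi₂ hi₃ hi
        have h5 := h2 i hi₁ (by simp only [e] at hi₃; simpa using hi₃) hi
        simp only [e, Nat.zero_add, List.getElem_cons_zero]
        exact h5
      · have huk' : u < k := by omega
        obtain ⟨h5, h6⟩ := h4 u huk'
        have e : k + 1 - 1 - u = (k - 1 - u) + 1 := by omega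
        refine ⟨by rw [e]; simp only [List.length_cons]; omega, ?_⟩
        intro i hi₁ hi₂ hi₃ hi
        simp only [e, List.length_cons] at hi₂ hi₃
        have h7 := h6 i hi₁ (by omega) (by omega) hi
        simp only [e]
        simp only [List.getElem_cons_succ]
        have e2 : k - 1 - u + 1 + i = (k - 1 - u + i) + 1 := by omega
        simp only [e2, List.getElem_cons_succ]
        exact h7
    · rintro ⟨h3, h4⟩
      refine ⟨⟨?_, ?_⟩, by simpa using h3, ?_⟩
      · have := (h4 k (by omega)).1
        have e : k + 1 - 1 - k = 0 := by omega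
        rw [e] at this
        simpa using this
      · intro i h₁ h₂ hi
        have e : k + 1 - 1 - k = 0 := by omega
        have := (h4 k (by omega)).2 i h₁ (by simp) (by rw [e]; simpa using h₂) hi
        simp only [e, Nat.zero_add, List.getElem_cons_zero] at this
        exact this
      · intro u hu
        obtain ⟨h5, h6⟩ := h4 u (by omega)
        have e : k + 1 - 1 - u = (k - 1 - u) + 1 := by omega
        rw [e] at h5
        refine ⟨by simp only [List.length_cons] at h5; omega, ?_⟩
        intro i hi₁ hi₂ hi₃ hi
        have h7 := h6 i hi₁ (by rw [e]; simpa using hi₂)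
          (by rw [e]; simp only [List.length_cons]; omega) hi
        simp only [e] at h7
        simp only [List.getElem_cons_succ] at h7
        have e2 : k - 1 - u + 1 + i = (k - 1 - u + i) + 1 := by omega
        simp only [e2, List.getElem_cons_succ] at h7
        exact h7

end Pool.Agent.Helper32_HCK
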