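import Pool.Agent.Helper32_HCK.Verify
import Pool.Agent.Helper32_Poly.Morphism

/-!
# The verifier as a structured stack program
-/

namespace Pool.Agent.Helper32_HCK

open Classical Function Pool.Agent.Helper32_Poly

/-- five stacks -/
inductive K5
  | inp | t | w | d | out
  deriving DecidableEq

instance : Fintype K5 := ⟨{.inp, .t, .w, .d, .out}, by intro x; cases x <;> decide⟩

/-- alphabets -/
abbrev G5 (W : Type) : K5 → Type
  | .inp => Option Bool ⊕ W
  | .t => Option Bool ⊕ W
  | .w => W
  | .d => W
  | .out => Bool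

/-- contents -/
def S5 {W : Type} (x y : List (Option Bool ⊕ W)) (w d : List W) : ∀ k, List (G5 W k)
  | .inp => x
  | .t => y
  | .w => w
  | .d => d
  | .out => []

section

variable {W : Type}

@[simp] theorem S5_inp (x y : List (Option Bool ⊕ W)) (w d : List W) :
    S5 x y w d .inp = x := rfl
@[simp] theorem S5_t (x y : List (Option Bool ⊕ W)) (w d : List W) :
    S5 x y w d .t = y := rfl
@[simp] theorem S5_w (x y : List (Option Bool ⊕ W)) (w d : List W) :
    S5 x y w d .w = w := rfl
@[simp] theorem S5_d (x y : List (Option Bool ⊕ W)) (w d : List W) :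
    S5 x y w d .d = d := rfl

theorem S5_update_inp (x y : List (Option Bool ⊕ W)) (w d : List W) (x') :
    update (S5 x y w d) K5.inp x' = S5 x' y w d := by
  funext k; cases k <;> rfl
theorem S5_update_t (x y : List (Option Bool ⊕ W)) (w d : List W) (x') :
    update (S5 x y w d) K5.t x' = S5 x x' w d := by
  funext k; cases k <;> rfl
theorem S5_update_w (x y : List (Option Bool ⊕ W)) (w d : List W) (x') :
    update (S5 x y w d) K5.w x' = S5 x y x' d := by
  funext k; cases k <;> rfl
theorem S5_update_d (x y : List (Option Bool ⊕ W)) (w d : List W) (x') :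
    update (S5 x y w d) K5.d x' = S5 x y w x' := by
  funext k; cases k <;> rfl
theorem S5_zero (x : List (Option Bool ⊕ W)) :
    update (fun _ => [] : ∀ k, List (G5 W k)) K5.inp x = S5 x [] [] [] := by
  funext k; cases k <;> rfl

end

/-- finite control of the verifier: current vertex colour, success flag, counters -/
abbrev Ctl (W : Type) (M : ℕ) : Type := Option W × Bool × (W → Fin (M + 2))

/-- internal memory of the verifier: letter register, colour register, control -/
abbrev Mem (W : Type) (M : ℕ) : Type := Option (Option Bool ⊕ W) × Option W × Ctl W M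

variable {W : Type} [Fintype W] {M : ℕ} (adj : W → W → Prop)

/-- control part of an abstract state -/
def VS.ctl (s : VS W M) : Ctl W M := (s.cur, s.ok, s.cnt)

/-- memory update at the end of a row -/
noncomputable def endRow (v : Mem W M) : Mem W M :=
  (v.1, v.2.1, (none, v.2.2.2.1, match v.2.2.1 with
    | none => v.2.2.2.2
    | some c => bump v.2.2.2.2 c))

/-- memory update after reading a bit, with the colour in the colour register -/
noncomputable def readBit (v : Mem W M) : Mem W M :=
  match v with
  | (some (.inl (some b)), some c, (cur, ok, cnt)) =>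
    (some (.inl (some b)), some c,
      (some (cur.getD c), ok && (!b || decide (adj (cur.getD c) c)), cnt))
  | v => v

/-- the letter register contains a colour -/
def isColour (v : Mem W M) : Bool :=
  match v.1 with
  | some (.inr _) => true
  | _ => false

/-- the letter register contains an end-of-row marker -/
def isMarker (v : Mem W M) : Bool :=
  match v.1 with
  | some (.inl none) => true
  | _ => false

/-- the colour in the letter register -/
def getColour (v : Mem W M) : Option W :=
  match v.1 with
  | some (.inr c) => some c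
  | _ => none

/-- body of the main loop -/
noncomputable def body : Prog (G5 W) (Mem W M) :=
  .ite isColour (.pushMap getColour K5.w (fun c => [c]))
    (.ite isMarker
      (.seq (.load endRow)
        (.seq (.forEach K5.d (fun v => v.2.1) (fun v o => (v.1, o, v.2.2))
            (.pushMap (fun v => v.2.1) K5.w (fun c => [c])))
          (.pop K5.w (fun v _ => v))))
      (.seq (.pop K5.w (fun v o => (v.1, o, v.2.2)))
        (.ite (fun v => v.2.1.isSome)
          (.seq (.pushMap (fun v => v.2.1) K5.d (fun c => [c])) (.load (readBit adj)))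
          (.load (fun v => (v.1, v.2.1, (v.2.2.1, false, v.2.2.2.2)))))))

/-- running time bound of the body -/
def bodyTime (W : Type) [Fintype W] (N : ℕ) : ℕ :=
  N * (2 * Fintype.card W + 3) + 2 * Fintype.card W + 20

theorem body_run (a : Option Bool ⊕ W) (l : List (Option Bool ⊕ W)) (r : Option W)
    (s : VS W M) (N : ℕ) (hN : s.d.length ≤ N) :
    ∃ r' t, t ≤ bodyTime W N ∧
      Prog.Run (body adj) (some a, r, s.ctl) (S5 [] l s.w s.d)
        (some a, r', (vstep adj s a).ctl) (S5 [] l (vstep adj s a).w (vstep adj s a).d) t := by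
  have hcard : ∑ _c : W, 1 = Fintype.card W := by simp
  rcases a with (_ | b) | c
  · -- end of row
    have h1 := Prog.Run.load (Γ := G5 W) endRow (some (Sum.inl none), r, s.ctl)
      (S5 [] l s.w s.d)
    obtain ⟨v2, T2, t2, ht2, hr2, hI2, -⟩ := Prog.forEach_run (Γ := G5 W) K5.d
      (fun (v : Mem W M) => v.2.1) (fun v o => (v.1, o, v.2.2)) (fun _ _ => rfl)
      (.pushMap (fun v => v.2.1) K5.w (fun c => [c]))
      (fun l' v S => ∃ d', d' ++ l' = s.d ∧ S = S5 [] l (d'.reverse ++ s.w) l' ∧
        v.1 = some (Sum.inl none) ∧ v.2.2 = (endRow (some (Sum.inl none), r, s.ctl)).2.2)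
      (Fintype.card W + 1 + Fintype.card W)
      (by
        rintro x l' v S ⟨d', hd', rfl, hv1, hv2⟩ -
        obtain ⟨t, ht, hr⟩ := Prog.pushMap_run (Γ := G5 W) (fun (v : Mem W M) => v.2.1)
          K5.w (fun c => [c]) (v := (v.1, some x, v.2.2)) (a := x)
          (update (S5 [] l (d'.reverse ++ s.w) (x :: l')) K5.d l') rfl
        rw [S5_update_d] at hr ⊢
        rw [S5_update_w, S5_w] at hr
        have ht' : t ≤ Fintype.card W + 1 + Fintype.card W := by simpa using ht
        have e : x :: (d'.reverse ++ s.w) = (d' ++ [x]).reverse ++ s.w := by simp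
        refine ⟨_, _, t, ht', hr, ⟨d' ++ [x], by simpa using hd', ?_, hv1, hv2⟩, rfl⟩
        rw [← e]
        rfl)
      s.d (endRow (some (Sum.inl none), r, s.ctl)) (S5 [] l s.w s.d) rfl
      ⟨[], rfl, rfl, rfl, rfl⟩
    obtain ⟨d', hd', rfl, hv1, hv2⟩ := hI2
    rw [List.append_nil] at hd'
    subst hd'
    have h3 := Prog.Run.pop (Γ := G5 W) K5.w (fun (v : Mem W M) _ => v)
      (v2.1, none, v2.2.2) (S5 [] l (s.d.reverse ++ s.w) [])
    rw [S5_update_w, S5_w] at h3
    have h4 := Prog.Run.ite_false (c := isColour) (p := (.pushMap getColour K5.w (fun c => [c])))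
      rfl (Prog.Run.ite_true (c := isMarker)
        (q := (.seq (.pop K5.w (fun v o => (v.1, o, v.2.2)))
        (.ite (fun v => v.2.1.isSome)
          (.seq (.pushMap (fun v => v.2.1) K5.d (fun c => [c])) (.load (readBit adj)))
          (.load (fun v => (v.1, v.2.1, (v.2.2.1, false, v.2.2.2.2)))))))
        rfl (Prog.Run.seq h1 (Prog.Run.seq hr2 h3)))
    rw [hv1, hv2] at h4
    refine ⟨none, _, ?_, h4⟩
    unfold bodyTime
    have : s.d.length * (Fintype.card W + 1 + Fintype.card W + 2) ≤
        N * (2 * Fintype.card W + 3) := by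
      have e : Fintype.card W + 1 + Fintype.card W + 2 = 2 * Fintype.card W + 3 := by ring
      rw [e]
      exact Nat.mul_le_mul_right _ hN
    omega
  · -- a bit
    rcases s with ⟨cur, ok, cnt, w, d⟩
    rcases w with _ | ⟨c, w⟩
    · have h1 := Prog.Run.pop (Γ := G5 W) K5.w (fun (v : Mem W M) o => (v.1, o, v.2.2))
        (some (Sum.inl (some b)), r, (cur, ok, cnt)) (S5 [] l [] d)
      rw [S5_update_w, S5_w] at h1
      have h2 := Prog.Run.load (Γ := G5 W)
        (fun (v : Mem W M) => (v.1, v.2.1, (v.2.2.1, false, v.2.2.2.2)))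
        (some (Sum.inl (some b)), none, (cur, ok, cnt)) (S5 [] l [] d)
      have h4 := Prog.Run.ite_false (c := isColour)
        (p := (.pushMap getColour K5.w (fun c => [c])))
        rfl (Prog.Run.ite_false (c := isMarker)
        (p := (.seq (.load endRow)
        (.seq (.forEach K5.d (fun v => v.2.1) (fun v o => (v.1, o, v.2.2))
            (.pushMap (fun v => v.2.1) K5.w (fun c => [c])))
          (.pop K5.w (fun v _ => v)))))
        rfl (Prog.Run.seq h1 (Prog.Run.ite_false (c := fun v => v.2.1.isSome)
          (p := (.seq (.pushMap (fun v => v.2.1) K5.d (fun c => [c])) (.load (readBit adj))))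
          rfl h2)))
      refine ⟨none, _, ?_, h4⟩
      unfold bodyTime
      omega
    · have h1 := Prog.Run.pop (Γ := G5 W) K5.w (fun (v : Mem W M) o => (v.1, o, v.2.2))
        (some (Sum.inl (some b)), r, (cur, ok, cnt)) (S5 [] l (c :: w) d)
      rw [S5_update_w, S5_w] at h1
      obtain ⟨t, ht, hr⟩ := Prog.pushMap_run (Γ := G5 W) (fun (v : Mem W M) => v.2.1)
          K5.d (fun c => [c]) (v := (some (Sum.inl (some b)), some c, (cur, ok, cnt))) (a := c)
          (S5 [] l w d) rfl
      rw [S5_update_d, S5_d] at hr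
      have h2 := Prog.Run.load (Γ := G5 W) (readBit adj)
        (some (Sum.inl (some b)), some c, (cur, ok, cnt)) (S5 [] l w (c :: d))
      have h4 := Prog.Run.ite_false (c := isColour)
        (p := (.pushMap getColour K5.w (fun c => [c])))
        rfl (Prog.Run.ite_false (c := isMarker)
        (p := (.seq (.load endRow)
        (.seq (.forEach K5.d (fun v => v.2.1) (fun v o => (v.1, o, v.2.2))
            (.pushMap (fun v => v.2.1) K5.w (fun c => [c])))
          (.pop K5.w (fun v _ => v)))))
        rfl (Prog.Run.seq h1 (Prog.Run.ite_true (c := fun v => v.2.1.isSome)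
          (q := (.load (fun v => (v.1, v.2.1, (v.2.2.1, false, v.2.2.2.2)))))
          rfl (Prog.Run.seq hr h2))))
      refine ⟨some c, _, ?_, h4⟩
      unfold bodyTime
      have ht' : t ≤ Fintype.card W + 1 + Fintype.card W := by simpa using ht
      omega
  · obtain ⟨t, ht, hr⟩ := Prog.pushMap_run (Γ := G5 W) (getColour (M := M))
          K5.w (fun c => [c]) (v := (some (Sum.inr c), r, s.ctl)) (a := c)
          (S5 [] l s.w s.d) rfl
    rw [S5_update_w, S5_w] at hr
    have h4 := Prog.Run.ite_true (c := isColour)
      (q := (.ite isMarker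
      (.seq (.load endRow)
        (.seq (.forEach K5.d (fun v => v.2.1) (fun v o => (v.1, o, v.2.2))
            (.pushMap (fun v => v.2.1) K5.w (fun c => [c])))
          (.pop K5.w (fun v _ => v))))
      (.seq (.pop K5.w (fun v o => (v.1, o, v.2.2)))
        (.ite (fun v => v.2.1.isSome)
          (.seq (.pushMap (fun v => v.2.1) K5.d (fun c => [c])) (.load (readBit adj)))
          (.load (fun v => (v.1, v.2.1, (v.2.2.1, false, v.2.2.2.2)))))))) rfl hr
    refine ⟨r, _, ?_, h4⟩
    unfold bodyTime
    have ht' : t ≤ Fintype.card W + 1 + Fintype.card W := by simpa using ht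
    omega

omit [Fintype W] in
theorem vstep_size (s : VS W M) (a : Option Bool ⊕ W) :
    (vstep adj s a).w.length + (vstep adj s a).d.length ≤ s.w.length + s.d.length + 1 := by
  rcases a with (_ | b) | c
  · simp [vstep]; omega
  · rcases hw : s.w with _ | ⟨c, w'⟩
    · simp [vstep, hw]
    · simp [vstep, hw]; omega
  · simp [vstep]; omega

omit [Fintype W] in
theorem fold_size (l : List (Option Bool ⊕ W)) : ∀ (s : VS W M),
    (l.foldl (vstep adj) s).w.length + (l.foldl (vstep adj) s).d.length ≤
      s.w.length + s.d.length + l.length := by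
  induction l with
  | nil => intro s; simp
  | cons a l ih =>
    intro s
    have h1 := ih (vstep adj s a)
    have h2 := vstep_size adj s a
    simp only [List.foldl_cons, List.length_cons]
    omega

/-- the verifier program -/
noncomputable def vprog : Prog (G5 W) (Mem W M) :=
  .seq (.forEach K5.inp (fun v => v.1) (fun v o => (o, v.2))
      (.pushMap (fun v => v.1) K5.t (fun x => [x])))
    (.forEach K5.t (fun v => v.1) (fun v o => (o, v.2)) (body adj))

theorem vprog_run (x : List (Option Bool ⊕ W)) :
    ∃ t v' S', t ≤ x.length * (x.length * (2 * Fintype.card W + 3) +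
        (4 * Fintype.card (Option Bool ⊕ W) + 2 * Fintype.card W + 30)) + 4 ∧
      v'.2.2 = (x.reverse.foldl (vstep adj) (vinit : VS W M)).ctl ∧
      Prog.Run (vprog adj) (none, none, (vinit : VS W M).ctl) (S5 x [] [] []) v' S' t := by
  have hcard : ∑ _c : Option Bool ⊕ W, 1 = Fintype.card (Option Bool ⊕ W) := by simp
  obtain ⟨v1, T1, t1, ht1, hr1, hI1, -⟩ := Prog.forEach_run (Γ := G5 W) K5.inp
    (fun (v : Mem W M) => v.1) (fun v o => (o, v.2)) (fun _ _ => rfl)
    (.pushMap (fun v => v.1) K5.t (fun x => [x]))
    (fun l v S => ∃ d, d ++ l = x ∧ S = S5 l d.reverse [] [] ∧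
      v.2 = (none, (vinit : VS W M).ctl))
    (∑ _c : Option Bool ⊕ W, 1 + 1 + Fintype.card (Option Bool ⊕ W))
    (by
      rintro a l v S ⟨d, hd, rfl, hv⟩ -
      obtain ⟨t, ht, hr⟩ := Prog.pushMap_run (Γ := G5 W) (fun (v : Mem W M) => v.1)
        K5.t (fun x => [x]) (v := (some a, v.2)) (a := a)
        (update (S5 (a :: l) d.reverse [] []) K5.inp l) rfl
      rw [S5_update_inp] at hr ⊢
      rw [S5_update_t, S5_t] at hr
      exact ⟨_, _, t, ht, hr, ⟨d ++ [a], by simpa using hd, by simp, hv⟩, rfl⟩)
    x (none, none, (vinit : VS W M).ctl) (S5 x [] [] []) rfl ⟨[], rfl, rfl, rfl⟩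
  obtain ⟨d1, hd1, rfl, hv1⟩ := hI1
  rw [List.append_nil] at hd1
  subst hd1
  obtain ⟨v2, T2, t2, ht2, hr2, hI2, -⟩ := Prog.forEach_run (Γ := G5 W) K5.t
    (fun (v : Mem W M) => v.1) (fun v o => (o, v.2)) (fun _ _ => rfl)
    (body adj)
    (fun l v S => ∃ d, d ++ l = d1.reverse ∧
      v.2.2 = (d.foldl (vstep adj) (vinit : VS W M)).ctl ∧
      S = S5 [] l (d.foldl (vstep adj) (vinit : VS W M)).w
        (d.foldl (vstep adj) (vinit : VS W M)).d)
    (bodyTime W d1.length)
    (by
      rintro a l ⟨v1, v2, v3⟩ S ⟨d, hd, hv, rfl⟩ -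
      simp only at hv
      subst hv
      rw [S5_update_t]
      have hsz := fold_size adj d (vinit : VS W M)
      have hlen : d.length + (l.length + 1) = d1.length := by
        have := congrArg List.length hd
        simpa using this
      obtain ⟨r', t, ht, hr⟩ := body_run adj a l v2 (d.foldl (vstep adj) (vinit : VS W M))
        d1.length (by
          have h0 : (vinit : VS W M).w.length + (vinit : VS W M).d.length = 0 := rfl
          omega)
      refine ⟨_, _, t, ht, hr, ⟨d ++ [a], by simpa using hd, ?_, ?_⟩, rfl⟩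
      · simp [List.foldl_append]
      · simp [List.foldl_append])
    d1.reverse (none, v1.2) (S5 [] d1.reverse [] []) rfl
    ⟨[], rfl, by rw [hv1]; rfl, rfl⟩
  obtain ⟨d2, hd2, hv2, rfl⟩ := hI2
  rw [List.append_nil] at hd2
  subst hd2
  refine ⟨t1 + t2, (none, v2.2), _, ?_, hv2, Prog.Run.seq hr1 hr2⟩
  have ht1' : t1 ≤ d1.length * (Fintype.card (Option Bool ⊕ W) + 1 +
      Fintype.card (Option Bool ⊕ W) + 2) + 2 := by
    rw [hcard] at ht1
    exact ht1
  unfold bodyTime at ht2
  simp only [List.length_reverse] at ht2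
  have e : d1.length * (d1.length * (2 * Fintype.card W + 3) +
        (4 * Fintype.card (Option Bool ⊕ W) + 2 * Fintype.card W + 30)) =
      d1.length * (Fintype.card (Option Bool ⊕ W) + 1 + Fintype.card (Option Bool ⊕ W) + 2) +
      d1.length * (d1.length * (2 * Fintype.card W + 3) + 2 * Fintype.card W + 20 + 2) +
      d1.length * (2 * Fintype.card (Option Bool ⊕ W) + 5) := by ring
  omega

end Pool.Agent.Helper32_HCK
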